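import Pool.Agent.Helper55.FT.Q5xF
import Pool.Agent.Helper55.FT.Q7xF
import Pool.Agent.Helper55.FT.Q11xF
import Pool.Agent.Helper55.FT.Q13xF
import Pool.Agent.Helper55.FT.Q17xF
import Pool.Agent.Helper55.FT.Q19xF

set_option autoImplicit false

/-!
# Flat ternary cyclotomic polynomials whose smallest prime is at most `19`

The statement of Q1 for `p ≤ 19` and all primes `p < q < r`.
-/

namespace Pool.Agent.Results.MP_0a4b47_nt.PrimesUpTo19

open Pool.Agent.Helper55.FT

/-- The statement of Q1 for all `p ≤ 19`. -/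
theorem result :
    ∀ p q r : ℕ, p.Prime → q.Prime → r.Prime → Odd p → Odd q → Odd r →
      p < q → q < r → p ≤ 19 →
      (∀ k : ℕ, |(Polynomial.cyclotomic (p * q * r) ℤ).coeff k| ≤ 1) →
      (Int.ModEq (p : ℤ) (q : ℤ) 1 ∨ Int.ModEq (p : ℤ) (q : ℤ) (-1)) ∨
      (Int.ModEq ((p * q : ℕ) : ℤ) (r : ℤ) 1 ∨ Int.ModEq ((p * q : ℕ) : ℤ) (r : ℤ) (-1)) := by
  intro p q r hp hq hr hop _ _ hpq hqr h19 hflat
  have hcases : p = 3 ∨ p = 5 ∨ p = 7 ∨ p = 11 ∨ p = 13 ∨ p = 17 ∨ p = 19 := by
    have h2 := hp.two_le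
    interval_cases p <;> first
      | omega
      | (exfalso; revert hp; decide)
      | (exfalso; revert hop; decide)
  rcases hcases with rfl | rfl | rfl | rfl | rfl | rfl | rfl
  · left
    have h3 : q % 3 ≠ 0 := by
      intro h
      have h4 : 3 ∣ q := Nat.dvd_of_mod_eq_zero h
      have h5 := (Nat.prime_dvd_prime_iff_eq hp hq).1 h4
      omega
    have h6 : q % 3 = 1 ∨ q % 3 = 2 := by omega
    unfold Int.ModEq
    rcases h6 with h | h
    · left; omega
    · right; omega
  · exact conj_of_pairs hp (by norm_num)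
      (fun q D h1 h2 h3 => of_rows (by norm_num) rows_5 h1 h2 h3) hq hr hpq hqr hflat
  · exact conj_of_pairs hp (by norm_num)
      (fun q D h1 h2 h3 => of_rows (by norm_num) rows_7 h1 h2 h3) hq hr hpq hqr hflat
  · exact conj_of_pairs hp (by norm_num)
      (fun q D h1 h2 h3 => of_rows (by norm_num) rows_11 h1 h2 h3) hq hr hpq hqr hflat
  · exact conj_of_pairs hp (by norm_num)
      (fun q D h1 h2 h3 => of_rows (by norm_num) rows_13 h1 h2 h3) hq hr hpq hqr hflat
  · exact conj_of_pairs hp (by norm_num)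
      (fun q D h1 h2 h3 => of_rows (by norm_num) rows_17 h1 h2 h3) hq hr hpq hqr hflat
  · exact conj_of_pairs hp (by norm_num)
      (fun q D h1 h2 h3 => of_rows (by norm_num) rows_19 h1 h2 h3) hq hr hpq hqr hflat

end Pool.Agent.Results.MP_0a4b47_nt.PrimesUpTo19
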