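import Pool.Agent.Helper8.Tern.CaseOne

set_option autoImplicit false

/-!
# Flat ternary cyclotomic polynomials and small inverses

Let `p < q < r` be odd primes such that `Φ_{pqr}` is flat.  If the inverse of `r` modulo `p q` has
a small representative up to sign, that is `r v ≡ ± 1 (mod p q)` for some `v ≥ 1` with
`(p - 1) (v + 1) < q`, then `q ≡ ± 1 (mod p)` or `r ≡ ± 1 (mod p q)`.
-/

namespace Pool.Agent.Results.MP_0a4b47_nt.SmallInverse

open Pool.Agent.Helper8.Tern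

/-- The conjecture holds for all `r` whose inverse modulo `p q` is, up to sign, congruent to some
`v` with `(p - 1) (v + 1) < q`. -/
theorem result :
    ∀ p q r v : ℕ, p.Prime → q.Prime → r.Prime → Odd p → Odd q → Odd r →
      p < q → q < r → 1 ≤ v → (p - 1) * (v + 1) < q →
      (Int.ModEq ((p * q : ℕ) : ℤ) (r * v) 1 ∨ Int.ModEq ((p * q : ℕ) : ℤ) (r * v) (-1)) →
      (∀ k : ℕ, |(Polynomial.cyclotomic (p * q * r) ℤ).coeff k| ≤ 1) →
      (Int.ModEq (p : ℤ) (q : ℤ) 1 ∨ Int.ModEq (p : ℤ) (q : ℤ) (-1)) ∨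
      (Int.ModEq ((p * q : ℕ) : ℤ) (r : ℤ) 1 ∨ Int.ModEq ((p * q : ℕ) : ℤ) (r : ℤ) (-1)) := by
  intro p q r v hp hq hr _ _ _ hpq hqr hv hvq hrv hflat
  by_contra hcon
  push Not at hcon
  obtain ⟨⟨hq1, hq2⟩, hr1, hr2⟩ := hcon
  have hfact : Fact p.Prime := ⟨hp⟩
  -- `v ≠ 1`
  have hv2 : 2 ≤ v := by
    by_contra hlt
    have hv1 : v = 1 := by omega
    subst hv1
    simp only [Nat.cast_one, mul_one] at hrv
    rcases hrv with h | h
    · exact hr1 h
    · exact hr2 h
  obtain ⟨ε, hε, hd⟩ : ∃ ε : ℤ, (ε = 1 ∨ ε = -1) ∧ ((p : ℤ) * q) ∣ (r : ℤ) * v - ε := by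
    rcases hrv with h | h
    · refine ⟨1, Or.inl rfl, ?_⟩
      have := h.symm.dvd
      push_cast at this
      exact this
    · refine ⟨-1, Or.inr rfl, ?_⟩
      have := h.symm.dvd
      push_cast at this
      exact this
  have hq1' : (q : ZMod p) ≠ 1 := by
    intro h
    apply hq1
    rw [← ZMod.intCast_eq_intCast_iff]
    push_cast
    exact h
  have hq2' : (q : ZMod p) ≠ -1 := by
    intro h
    apply hq2
    rw [← ZMod.intCast_eq_intCast_iff]
    push_cast
    exact h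
  obtain ⟨n, hn⟩ : ∃ n, 2 ≤ |(Polynomial.cyclotomic (p * q * r) ℤ).coeff n| := by
    by_cases h1 : (v : ZMod p) = 1
    · exact case_A hε hq hr hpq hqr hv2 hvq hd h1 hq2'
    · by_cases h2 : (v : ZMod p) = -1
      · exact case_B hε hq hr hpq hqr hv2 hvq hd h2 hq1'
      · exact case_C hε hq hr hpq hqr hv2 hvq hd h1 h2 hq1' hq2'
  have := hflat n
  omega

end Pool.Agent.Results.MP_0a4b47_nt.SmallInverse
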