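import Pool.Agent.Helper10.W1.All

set_option autoImplicit false

/-!
# Flat ternary cyclotomic polynomials and small inverses modulo `q`

Let `p < q < r` be odd primes such that `Φ_{pqr}` is flat, and suppose that the inverse of `r` modulo
`q` has a small representative up to sign: `r v ≡ ± 1 (mod q)` with `v ≥ 1`, `(p - 1) (v + 1) < q`.
Then `r v ≡ ± 1 (mod p q)`, or `p` divides `v` and `q ≡ ± 1 (mod p)`.
-/

namespace Pool.Agent.Results.MP_0a4b47_nt.SmallInverseModQ

open Pool.Agent.Helper10.W1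

/-- If the inverse of `r` modulo `q` is small but the inverse modulo `p q` is not, then `Φ_{pqr}` is not
flat, except possibly when `p ∣ v` and `q ≡ ± 1 (mod p)`. -/
theorem result :
    ∀ p q r v : ℕ, p.Prime → q.Prime → r.Prime → Odd p → Odd q → Odd r →
      p < q → q < r → 1 ≤ v → (p - 1) * (v + 1) < q →
      (Int.ModEq (q : ℤ) (r * v) 1 ∨ Int.ModEq (q : ℤ) (r * v) (-1)) →
      (∀ k : ℕ, |(Polynomial.cyclotomic (p * q * r) ℤ).coeff k| ≤ 1) →
      (Int.ModEq ((p * q : ℕ) : ℤ) (r * v) 1 ∨ Int.ModEq ((p * q : ℕ) : ℤ) (r * v) (-1)) ∨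
      (p ∣ v ∧ (Int.ModEq (p : ℤ) (q : ℤ) 1 ∨ Int.ModEq (p : ℤ) (q : ℤ) (-1))) := by
  intro p q r v hp hq hr hpo _ _ hpq hqr hv hvq hrv hflat
  exact near_multiple wall thSmallP thBulk thDivZero thDivBal thDivOne thDivMinus
    hp hq hr hpo hpq hqr hv hvq hrv hflat

end Pool.Agent.Results.MP_0a4b47_nt.SmallInverseModQ
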